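import Pool.Agent.Helper59.Rotation.Rotund

/-!
# The Bishop-Phelps theorem and finite dimensional separation
-/

open Filter Topology

universe u v

namespace Helper60.Rosenthal

variable {E : Type u} [NormedAddCommGroup E] [NormedSpace ℝ E]

/-- The Bishop-Phelps theorem: norm attaining functionals are norm dense. -/
theorem bishop_phelps [CompleteSpace E] (f : StrongDual ℝ E) (hf : ‖f‖ = 1) {ε : ℝ}
    (hε : 0 < ε) :
    ∃ (v : E) (g : StrongDual ℝ E), ‖v‖ = 1 ∧ ‖g‖ = 1 ∧ g v = 1 ∧ ‖g - f‖ ≤ ε := by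
  set δ : ℝ := min (ε / 2) (1 / 2) with hδ
  have hδ0 : 0 < δ := lt_min (by positivity) (by norm_num)
  have hδ1 : δ ≤ 1 / 2 := min_le_right _ _
  have hδε : δ ≤ ε / 2 := min_le_left _ _
  have hfle : ∀ z, f z ≤ ‖z‖ := fun z => by
    refine (le_abs_self _).trans ?_
    have := f.le_opNorm z
    rwa [hf, one_mul, Real.norm_eq_abs] at this
  obtain ⟨v, hvC, hvmax⟩ := Helper59.Rotation.exists_cone_maximal (C := Metric.closedBall (0 : E) 1)
    Metric.isClosed_closedBall ⟨0, by simp⟩ (fun z => f z) f.continuous 1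
    (fun u hu => (hfle u).trans (by simpa using hu)) (lam := δ⁻¹) (by positivity)
  have hv1 : ‖v‖ ≤ 1 := by simpa using hvC
  have hmax : ∀ u : E, ‖u‖ ≤ 1 → f u - f v ≤ δ * ‖u - v‖ := by
    intro u hu
    by_contra hlt
    push Not at hlt
    have h1 := hvmax u (by simpa using hu) (by
      rw [inv_mul_eq_div, le_div_iff₀ hδ0]
      linarith)
    rw [h1] at hlt
    simp at hlt
  -- separation in `E × ℝ`
  let s : Set (E × ℝ) := {p | δ * ‖p.1 - v‖ - f (p.1 - v) < p.2}
  let t : Set (E × ℝ) := {p | ‖p.1‖ ≤ 1 ∧ p.2 ≤ 0}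
  have hs1 : Convex ℝ s := by
    intro p hp q hq a b ha hb hab
    change δ * ‖(a • p + b • q).1 - v‖ - f ((a • p + b • q).1 - v) < (a • p + b • q).2
    have e : (a • p + b • q).1 - v = a • (p.1 - v) + b • (q.1 - v) := by
      have : v = a • v + b • v := by rw [← add_smul, hab, one_smul]
      calc (a • p + b • q).1 - v = a • p.1 + b • q.1 - (a • v + b • v) := by
            rw [← this]; rfl
        _ = a • (p.1 - v) + b • (q.1 - v) := by module
    have hp' : δ * ‖p.1 - v‖ - f (p.1 - v) < p.2 := hp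
    have hq' : δ * ‖q.1 - v‖ - f (q.1 - v) < q.2 := hq
    have h1 : ‖a • (p.1 - v) + b • (q.1 - v)‖ ≤ a * ‖p.1 - v‖ + b * ‖q.1 - v‖ := by
      refine (norm_add_le _ _).trans ?_
      rw [norm_smul, norm_smul, Real.norm_eq_abs, Real.norm_eq_abs, abs_of_nonneg ha,
        abs_of_nonneg hb]
    rw [e, map_add, map_smul, map_smul]
    change δ * ‖a • (p.1 - v) + b • (q.1 - v)‖ - (a * f (p.1 - v) + b * f (q.1 - v))
      < a * p.2 + b * q.2
    have h2 := mul_le_mul_of_nonneg_left h1 hδ0.le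
    have h3 := mul_le_mul_of_nonneg_left hp'.le ha
    have h4 := mul_le_mul_of_nonneg_left hq'.le hb
    rcases ha.eq_or_lt with ha0 | ha0
    · have hb1 : b = 1 := by linarith
      subst hb1
      rw [← ha0] at *
      nlinarith
    · have h5 := mul_lt_mul_of_pos_left hp' ha0
      nlinarith
  have hs2 : IsOpen s := isOpen_lt (by fun_prop) continuous_snd
  have ht : Convex ℝ t := by
    intro p hp q hq a b ha hb hab
    refine ⟨?_, ?_⟩
    · change ‖a • p.1 + b • q.1‖ ≤ 1
      refine (norm_add_le _ _).trans ?_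
      rw [norm_smul, norm_smul, Real.norm_eq_abs, Real.norm_eq_abs, abs_of_nonneg ha,
        abs_of_nonneg hb]
      have h1 := mul_le_mul_of_nonneg_left hp.1 ha
      have h2 := mul_le_mul_of_nonneg_left hq.1 hb
      linarith
    · change a * p.2 + b * q.2 ≤ 0
      have h1 := mul_le_mul_of_nonneg_left hp.2 ha
      have h2 := mul_le_mul_of_nonneg_left hq.2 hb
      linarith
  have hdisj : Disjoint s t := by
    rw [Set.disjoint_left]
    rintro p hp ⟨hp1, hp2⟩
    have h1 := hmax p.1 hp1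
    have h2 : δ * ‖p.1 - v‖ - f (p.1 - v) < p.2 := hp
    rw [map_sub] at h2
    linarith
  obtain ⟨Λ, c, hΛs, hΛt⟩ := geometric_hahn_banach_open hs1 hs2 ht hdisj
  set β : ℝ := Λ ((0 : E), (1 : ℝ)) with hβ
  let φ : StrongDual ℝ E := Λ ∘L (ContinuousLinearMap.inl ℝ E ℝ)
  have hΛ : ∀ (u : E) (r : ℝ), Λ (u, r) = φ u + r * β := by
    intro u r
    have : ((u, r) : E × ℝ) = (u, 0) + r • ((0 : E), (1 : ℝ)) := by
      ext <;> simp
    rw [this, map_add, map_smul]
    rfl
  have hc1 : c ≤ φ v := by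
    have := hΛt (v, 0) ⟨hv1, le_rfl⟩
    rwa [hΛ, zero_mul, add_zero] at this
  have hβ0 : β < 0 := by
    have := hΛs (v, 1) (by
      change δ * ‖v - v‖ - f (v - v) < 1
      simp)
    rw [hΛ, one_mul] at this
    linarith
  have hc2 : φ v ≤ c := by
    refine le_of_forall_pos_le_add fun r hr => ?_
    have := hΛs (v, r / (-β)) (by
      change δ * ‖v - v‖ - f (v - v) < r / (-β)
      have : 0 < r / (-β) := div_pos hr (by linarith)
      simpa using this)
    rw [hΛ] at this
    have hβne : β ≠ 0 := hβ0.ne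
    have h2 : r / (-β) * β = -r := by
      rw [div_neg, neg_mul, div_mul_cancel₀ _ hβne]
    rw [h2] at this
    linarith
  have hcv : c = φ v := le_antisymm hc1 hc2
  -- the functional
  have hβn : -β ≠ 0 := by linarith
  let g : StrongDual ℝ E := (-(-β)⁻¹) • φ
  have hg : ∀ u, g u = -((-β)⁻¹ * φ u) := fun u => by
    change (-(-β)⁻¹) * φ u = _
    ring
  have hβi : 0 < (-β)⁻¹ := inv_pos.mpr (by linarith)
  have hg1 : ∀ u : E, ‖u‖ ≤ 1 → g u ≤ g v := by
    intro u hu
    have := hΛt (u, 0) ⟨hu, le_rfl⟩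
    rw [hΛ, zero_mul, add_zero, hcv] at this
    rw [hg, hg]
    have := mul_le_mul_of_nonneg_left this hβi.le
    linarith
  have hg2 : ∀ h : E, f h - g h ≤ δ * ‖h‖ := by
    intro h
    refine le_of_forall_pos_le_add fun r hr => ?_
    have h1 := hΛs (v + h, δ * ‖h‖ - f h + r) (by
      change δ * ‖v + h - v‖ - f (v + h - v) < δ * ‖h‖ - f h + r
      rw [add_sub_cancel_left]
      linarith)
    rw [hΛ, map_add, hcv] at h1
    have h2 : φ h < (δ * ‖h‖ - f h + r) * (-β) := by linarith
    have h3 : (-β)⁻¹ * φ h < δ * ‖h‖ - f h + r := by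
      rw [inv_mul_eq_div, div_lt_iff₀ (by linarith)]
      exact h2
    rw [hg]
    linarith
  have hfg : ‖f - g‖ ≤ δ := by
    refine ContinuousLinearMap.opNorm_le_bound _ hδ0.le fun h => ?_
    rw [Real.norm_eq_abs, abs_le]
    constructor
    · have := hg2 (-h)
      rw [map_neg, map_neg, norm_neg] at this
      change -(δ * ‖h‖) ≤ f h - g h
      linarith
    · exact hg2 h
  have hgn : 1 / 2 ≤ ‖g‖ := by
    have := norm_sub_norm_le f g
    rw [hf] at this
    linarith
  have hgv : ‖g‖ ≤ g v := by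
    have h0 : 0 ≤ g v := by
      have := hg1 0 (by simp)
      rwa [map_zero] at this
    refine ContinuousLinearMap.opNorm_le_bound _ h0 fun h => ?_
    rcases eq_or_ne h 0 with rfl | hh
    · simp
    · have hn : 0 < ‖h‖ := norm_pos_iff.mpr hh
      have key : ∀ w : E, ‖w‖ = ‖h‖ → g w ≤ g v * ‖h‖ := by
        intro w hw
        have := hg1 (‖h‖⁻¹ • w) (by
          rw [norm_smul, norm_inv, norm_norm, hw, inv_mul_cancel₀ hn.ne'])
        rw [map_smul, smul_eq_mul, inv_mul_eq_div, div_le_iff₀ hn] at this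
        exact this
      rw [Real.norm_eq_abs, abs_le]
      constructor
      · have := key (-h) (norm_neg h)
        rw [map_neg] at this
        linarith
      · exact key h rfl
  have hvn : ‖v‖ = 1 := by
    refine le_antisymm hv1 ?_
    have h1 := g.le_opNorm v
    rw [Real.norm_eq_abs] at h1
    have h2 := (le_abs_self _).trans h1
    have h3 : ‖g‖ ≤ ‖g‖ * ‖v‖ := hgv.trans h2
    have h4 : 0 < ‖g‖ := by linarith
    exact (le_mul_iff_one_le_right h4).mp h3
  have hgpos : 0 < ‖g‖ := by linarith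
  have hgv2 : g v = ‖g‖ := by
    refine le_antisymm ?_ hgv
    have h1 := g.le_opNorm v
    rw [Real.norm_eq_abs, hvn, mul_one] at h1
    exact (le_abs_self _).trans h1
  refine ⟨v, ‖g‖⁻¹ • g, hvn, ?_, ?_, ?_⟩
  · rw [norm_smul, norm_inv, norm_norm, inv_mul_cancel₀ hgpos.ne']
  · change ‖g‖⁻¹ * g v = 1
    rw [hgv2, inv_mul_cancel₀ hgpos.ne']
  · have e : ‖g‖⁻¹ • g - f = (‖g‖⁻¹ - 1) • g + (g - f) := by module
    rw [e]
    refine (norm_add_le _ _).trans ?_
    rw [norm_smul, Real.norm_eq_abs, norm_sub_rev g f]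
    have h1 : |‖g‖⁻¹ - 1| * ‖g‖ = |1 - ‖g‖| := by
      rw [← abs_of_pos hgpos, ← abs_mul, abs_of_pos hgpos, sub_mul, inv_mul_cancel₀ hgpos.ne',
        one_mul]
    rw [h1]
    have h2 : |1 - ‖g‖| ≤ δ := by
      have := abs_norm_sub_norm_le f g
      rw [hf] at this
      exact this.trans hfg
    linarith

/-- Finite dimensional separation: a convex set whose support function dominates a point
approximates the point. -/
theorem exists_approx {ι : Type*} [Fintype ι] (A : Set (ι → ℝ)) (hA : Convex ℝ A) (p : ι → ℝ)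
    (h : ∀ lam : ι → ℝ, ∀ ε > 0, ∃ c ∈ A, ∑ i, lam i * p i - ε < ∑ i, lam i * c i)
    {ε : ℝ} (hε : 0 < ε) : ∃ c ∈ A, ∀ i, |c i - p i| < ε := by
  classical
  have hconv : Convex ℝ (closure A) := hA.closure
  by_cases hp : p ∈ closure A
  · rw [Metric.mem_closure_iff] at hp
    obtain ⟨c, hc, hd⟩ := hp ε hε
    refine ⟨c, hc, fun i => ?_⟩
    have h1 := (dist_pi_lt_iff hε).mp hd i
    rw [Real.dist_eq, abs_sub_comm] at h1
    exact h1
  · exfalso
    obtain ⟨φ, u, h1, h2⟩ := geometric_hahn_banach_closed_point hconv isClosed_closure hp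
    have hφ : ∀ w : ι → ℝ, φ w = ∑ i, φ (Pi.single i 1) * w i := by
      intro w
      have e := LinearMap.pi_apply_eq_sum_univ (φ : (ι → ℝ) →ₗ[ℝ] ℝ) w
      have e2 : ∀ i : ι, (fun j => if i = j then (1 : ℝ) else 0) = Pi.single i 1 := by
        intro i
        funext j
        simp [Pi.single_apply, eq_comm]
      simp only [e2] at e
      change (φ : (ι → ℝ) →ₗ[ℝ] ℝ) w = _
      rw [e]
      refine Finset.sum_congr rfl fun i _ => ?_
      rw [smul_eq_mul, mul_comm]
      rfl
    obtain ⟨c, hc, hlt⟩ := h (fun i => φ (Pi.single i 1)) (φ p - u) (by linarith)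
    rw [← hφ p, ← hφ c] at hlt
    have h3 := h1 c (subset_closure hc)
    linarith

/-- Helly / Goldstine: on finitely many functionals an element of the unit ball of the bidual is
approximated by an element of the unit ball. -/
theorem goldstine {ι : Type*} [Fintype ι] (z : StrongDual ℝ (StrongDual ℝ E)) (hz : ‖z‖ ≤ 1)
    (f : ι → StrongDual ℝ E) {ε : ℝ} (hε : 0 < ε) :
    ∃ e : E, ‖e‖ ≤ 1 ∧ ∀ i, |f i e - z (f i)| < ε := by
  obtain ⟨c, ⟨e, he, rfl⟩, h⟩ := exists_approx ((fun (e : E) (i : ι) => f i e) ''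
      {e | ‖e‖ ≤ 1}) (by
      rintro _ ⟨e₁, he₁, rfl⟩ _ ⟨e₂, he₂, rfl⟩ a b ha hb hab
      refine ⟨a • e₁ + b • e₂, ?_, ?_⟩
      · have := (convex_closedBall (0 : E) 1) (show e₁ ∈ Metric.closedBall (0 : E) 1 by
          simpa using he₁) (show e₂ ∈ Metric.closedBall (0 : E) 1 by simpa using he₂) ha hb hab
        simpa using this
      · funext i
        simp) (fun i => z (f i)) (by
      intro lam ε hε
      set F : StrongDual ℝ E := ∑ i, lam i • f i with hF
      have h1 : ∑ i, lam i * z (f i) = z F := by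
        rw [hF, map_sum]
        exact Finset.sum_congr rfl fun i _ => by rw [map_smul, smul_eq_mul]
      have h2 : ∀ e : E, ∑ i, lam i * f i e = F e := by
        intro e
        rw [hF, sum_apply]
        rfl
      have h3 : z F ≤ ‖F‖ := by
        refine (le_abs_self _).trans ((z.le_opNorm F).trans ?_)
        have := mul_le_mul_of_nonneg_right hz (norm_nonneg F)
        linarith
      obtain ⟨e, he1, he2⟩ : ∃ e : E, ‖e‖ < 1 ∧ ‖F‖ - ε < ‖F e‖ := by
        by_cases hneg : ‖F‖ - ε < 0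
        · exact ⟨0, by simp, by simpa using hneg⟩
        · have := ContinuousLinearMap.exists_lt_apply_of_lt_opNorm F
            (show ‖F‖ - ε < ‖F‖ by linarith)
          exact this
      rcases le_total 0 (F e) with h0 | h0
      · refine ⟨_, ⟨e, he1.le, rfl⟩, ?_⟩
        simp only [h1, h2]
        rw [Real.norm_eq_abs, abs_of_nonneg h0] at he2
        linarith
      · refine ⟨_, ⟨-e, (norm_neg e).le.trans he1.le, rfl⟩, ?_⟩
        simp only [h1, h2]
        rw [Real.norm_eq_abs, abs_of_nonpos h0] at he2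
        rw [map_neg]
        linarith) hε
  exact ⟨e, he, h⟩

end Helper60.Rosenthal
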