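import Pool.Agent.Helper60.Rosenthal.Slices

/-!
# Functionals of the bidual whose kernel is `1`-norming
-/

open Filter Topology

universe u v

namespace Helper60.Rosenthal

open Helper59.Rotation NormedSpace

variable {E : Type u} [NormedAddCommGroup E] [NormedSpace ℝ E]


/-! Elementary facts on the norm of the bidual. -/

theorem bnorm_nonneg (z : StrongDual ℝ (StrongDual ℝ E)) : 0 ≤ ‖z‖ :=
  ContinuousLinearMap.opNorm_nonneg z

theorem bnorm_add_le (z w : StrongDual ℝ (StrongDual ℝ E)) : ‖z + w‖ ≤ ‖z‖ + ‖w‖ :=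
  ContinuousLinearMap.opNorm_add_le z w

theorem bnorm_neg (z : StrongDual ℝ (StrongDual ℝ E)) : ‖-z‖ = ‖z‖ :=
  ContinuousLinearMap.opNorm_neg z

theorem bnorm_smul (c : ℝ) (z : StrongDual ℝ (StrongDual ℝ E)) : ‖c • z‖ = |c| * ‖z‖ := by
  have hle : ∀ (c : ℝ) (z : StrongDual ℝ (StrongDual ℝ E)), ‖c • z‖ ≤ |c| * ‖z‖ := fun c z =>
    ContinuousLinearMap.opNorm_smul_le c z
  refine le_antisymm (hle c z) ?_
  rcases eq_or_ne c 0 with rfl | hc
  · rw [abs_zero, zero_mul]; exact bnorm_nonneg _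
  · have h := hle c⁻¹ (c • z)
    rw [smul_smul, inv_mul_cancel₀ hc, one_smul, abs_inv] at h
    have hc' : 0 < |c| := abs_pos.mpr hc
    rwa [inv_mul_eq_div, le_div_iff₀ hc', mul_comm] at h

theorem bnorm_pos {z : StrongDual ℝ (StrongDual ℝ E)} (hz : z ≠ 0) : 0 < ‖z‖ := by
  refine lt_of_le_of_ne (bnorm_nonneg z) fun h => hz ?_
  ext f
  have := z.le_opNorm f
  rw [← h, zero_mul] at this
  simpa using norm_le_zero_iff.mp this

theorem bnorm_incl (x : E) : ‖inclusionInDoubleDual ℝ E x‖ = ‖x‖ :=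
  (inclusionInDoubleDualLi ℝ (E := E)).norm_map x

theorem apply_le_bnorm (z : StrongDual ℝ (StrongDual ℝ E)) {f : StrongDual ℝ E}
    (hf : ‖f‖ ≤ 1) : z f ≤ ‖z‖ := by
  refine (le_abs_self _).trans ((z.le_opNorm f).trans ?_)
  have := mul_le_mul_of_nonneg_left hf (bnorm_nonneg z)
  linarith

/-- the functionals `z` of the bidual with `‖x‖ ≤ ‖x + z‖` for all `x` in `E` -/
def IsO (z : StrongDual ℝ (StrongDual ℝ E)) : Prop :=
  ∀ x : E, ‖x‖ ≤ ‖inclusionInDoubleDual ℝ E x + z‖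

theorem IsO.neg {z : StrongDual ℝ (StrongDual ℝ E)} (hz : IsO z) : IsO (-z) := by
  intro x
  have h := hz (-x)
  rw [norm_neg, map_neg] at h
  have e : inclusionInDoubleDual ℝ E x + -z = -(-(inclusionInDoubleDual ℝ E x) + z) := by
    ext f
    change f x + -(z f) = -(-(f x) + z f)
    ring
  rw [e, bnorm_neg]
  exact h

theorem IsO.zero : IsO (0 : StrongDual ℝ (StrongDual ℝ E)) := by
  intro x
  rw [add_zero, bnorm_incl]

theorem IsO.smul {z : StrongDual ℝ (StrongDual ℝ E)} (hz : IsO z) (c : ℝ) : IsO (c • z) := by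
  rcases eq_or_ne c 0 with rfl | hc
  · rw [zero_smul]; exact IsO.zero
  · intro x
    have h := hz (c⁻¹ • x)
    have e : inclusionInDoubleDual ℝ E x + c • z
        = c • (inclusionInDoubleDual ℝ E (c⁻¹ • x) + z) := by
      rw [map_smul, smul_add, smul_smul, mul_inv_cancel₀ hc, one_smul]
    rw [e, bnorm_smul]
    have h2 := mul_le_mul_of_nonneg_left h (norm_nonneg c)
    rwa [norm_smul, norm_inv, ← mul_assoc, mul_inv_cancel₀ (norm_ne_zero_iff.mpr hc),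
      one_mul] at h2

/-- transport by an isometry -/
noncomputable def bidualIso (T : E ≃ₗᵢ[ℝ] E) (z : StrongDual ℝ (StrongDual ℝ E)) :
    StrongDual ℝ (StrongDual ℝ E) := z ∘L dualIso T

theorem bidualIso_apply (T : E ≃ₗᵢ[ℝ] E) (z : StrongDual ℝ (StrongDual ℝ E))
    (f : StrongDual ℝ E) : bidualIso T z f = z (dualIso T f) := rfl

theorem norm_bidualIso_le (T : E ≃ₗᵢ[ℝ] E) (z : StrongDual ℝ (StrongDual ℝ E)) :
    ‖bidualIso T z‖ ≤ ‖z‖ :=
  ContinuousLinearMap.opNorm_le_bound _ (bnorm_nonneg z) fun f => by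
    rw [bidualIso_apply]
    have := z.le_opNorm (dualIso T f)
    rwa [norm_dualIso] at this

theorem IsO.bidualIso {z : StrongDual ℝ (StrongDual ℝ E)} (hz : IsO z) (T : E ≃ₗᵢ[ℝ] E) :
    IsO (bidualIso T z) := by
  intro x
  have h := hz (T x)
  rw [T.norm_map] at h
  refine h.trans ?_
  have e : inclusionInDoubleDual ℝ E (T x) + z
      = Rosenthal.bidualIso T.symm (inclusionInDoubleDual ℝ E x + Rosenthal.bidualIso T z) := by
    ext f
    rw [bidualIso_apply]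
    simp only [add_apply, dual_def, bidualIso_apply, dualIso_symm']
    rw [dualIso_apply]
    simp
  rw [e]
  exact norm_bidualIso_le _ _

variable [CompleteSpace E]

/-- In every slice there is a norm attaining functional at which `z` is almost nonnegative. -/
theorem IsO.exists_point (hsm : ∀ x : E, ‖x‖ = 1 → SmoothAt x)
    {z : StrongDual ℝ (StrongDual ℝ E)} (hz : IsO z) (hz1 : ‖z‖ ≤ 1) {x : E} (hx : ‖x‖ = 1)
    {η δ : ℝ} (hη : 0 < η) (hδ : 0 < δ) :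
    ∃ y : E, ‖y‖ = 1 ∧ J y ∈ Sl x η ∧ -δ < z (J y) := by
  set R : ℝ := (2 + δ) / η with hR
  have hR0 : 0 < R := by positivity
  set F : StrongDual ℝ (StrongDual ℝ E) := inclusionInDoubleDual ℝ E (R • x) + z with hF
  have hFn : R ≤ ‖F‖ := by
    have := hz (R • x)
    rwa [norm_smul, Real.norm_eq_abs, abs_of_pos hR0, hx, mul_one] at this
  have hFapp : ∀ f : StrongDual ℝ E, F f = R * f x + z f := by
    intro f
    rw [hF, add_apply, dual_def, map_smul, smul_eq_mul]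
  have hFn' : ‖F‖ ≤ R + 1 := by
    refine (bnorm_add_le _ _).trans ?_
    rw [bnorm_incl, norm_smul, Real.norm_eq_abs, abs_of_pos hR0, hx, mul_one]
    linarith
  obtain ⟨f, hf1, hf2⟩ : ∃ u, ‖u‖ = 1 ∧ max 0 (R - δ / 2) < F u :=
    exists_unit_lt F (le_max_left _ _) (max_lt (by linarith) (by linarith))
  have hf3 : R - δ / 2 < F f := lt_of_le_of_lt (le_max_right _ _) hf2
  obtain ⟨y, g, hy, hg1, hg2, hgf⟩ := bishop_phelps f hf1
    (show (0 : ℝ) < δ / (2 * (R + 1)) by positivity)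
  have hgJ := J_unique hy (hsm y hy) hg1.le hg2
  rw [hgJ] at hgf
  have h1 : F f - F (J y) ≤ δ / 2 := by
    rw [← map_sub]
    refine (le_abs_self _).trans ((F.le_opNorm _).trans ?_)
    rw [norm_sub_rev]
    calc ‖F‖ * ‖J y - f‖ ≤ (R + 1) * (δ / (2 * (R + 1))) := by gcongr
      _ = δ / 2 := by field_simp
  have h2 : R - δ < R * J y x + z (J y) := by
    rw [← hFapp]; linarith
  have hJn := (J_spec hy).1
  have h3 : z (J y) ≤ 1 := (apply_le_bnorm z hJn.le).trans hz1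
  have h4 : J y x ≤ 1 := by
    have := le_of_norm_le hJn.le x
    rwa [hx] at this
  refine ⟨y, hy, ⟨hJn.le, ?_⟩, ?_⟩
  · have h5 : R - δ - 1 < R * J y x := by linarith
    have h6 : R * (1 - η) < R * J y x := by
      have : R * η = 2 + δ := by rw [hR]; field_simp
      nlinarith
    exact lt_of_mul_lt_mul_left h6 hR0.le
  · have := mul_le_mul_of_nonneg_left h4 hR0.le
    linarith

/-- If `E` does not contain `ℓ¹`, the set `IsO` is closed under addition. -/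
theorem IsO.add (hsm : ∀ x : E, ‖x‖ = 1 → SmoothAt x) (hl1 : ¬ ContainsL1 E)
    {z₁ z₂ : StrongDual ℝ (StrongDual ℝ E)} (h₁ : IsO z₁) (h₂ : IsO z₂) : IsO (z₁ + z₂) := by
  -- reduction to norm at most one
  suffices hred : ∀ {z₁ z₂ : StrongDual ℝ (StrongDual ℝ E)}, IsO z₁ → IsO z₂ → ‖z₁‖ ≤ 1 →
      ‖z₂‖ ≤ 1 → IsO (z₁ + z₂) by
    set r : ℝ := ‖z₁‖ + ‖z₂‖ + 1 with hr
    have hr0 : 0 < r := by
      have := bnorm_nonneg z₁
      have := bnorm_nonneg z₂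
      linarith
    have hn : ∀ z : StrongDual ℝ (StrongDual ℝ E), ‖z‖ ≤ r → ‖r⁻¹ • z‖ ≤ 1 := by
      intro z hz
      rw [bnorm_smul, abs_inv, abs_of_pos hr0, inv_mul_eq_div, div_le_one hr0]
      exact hz
    have h := (hred (h₁.smul r⁻¹) (h₂.smul r⁻¹)
      (hn _ (by rw [hr]; linarith [bnorm_nonneg z₁, bnorm_nonneg z₂]))
      (hn _ (by rw [hr]; linarith [bnorm_nonneg z₁, bnorm_nonneg z₂]))).smul r
    rwa [smul_add, smul_smul, smul_smul, mul_inv_cancel₀ hr0.ne', one_smul, one_smul] at h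
  intro z₁ z₂ h₁ h₂ hn₁ hn₂
  by_contra hcon
  apply hl1
  unfold IsO at hcon
  push Not at hcon
  obtain ⟨x, hx⟩ := hcon
  have hx0 : 0 < ‖x‖ := lt_of_le_of_lt (bnorm_nonneg _) hx
  set N : ℝ := ‖inclusionInDoubleDual ℝ E x + (z₁ + z₂)‖ with hN
  set c : ℝ := (‖x‖ - N) / 3 with hc
  have hc0 : 0 < c := by rw [hc]; linarith
  set x' : E := ‖x‖⁻¹ • x with hx'
  have hx'1 : ‖x'‖ = 1 := by
    rw [hx', norm_smul, norm_inv, norm_norm, inv_mul_cancel₀ hx0.ne']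
  set η : ℝ := c / ‖x‖ with hη
  have hη0 : 0 < η := div_pos hc0 hx0
  have hneg : ∀ f ∈ Sl x' η, z₁ f + z₂ f ≤ -(2 * c) := by
    intro f hf
    have h1 := apply_le_bnorm (inclusionInDoubleDual ℝ E x + (z₁ + z₂)) hf.1
    rw [add_apply, add_apply, dual_def] at h1
    have h2 : f x = ‖x‖ * f x' := by
      rw [hx', map_smul, smul_eq_mul, ← mul_assoc, mul_inv_cancel₀ hx0.ne', one_mul]
    have h3 := mul_lt_mul_of_pos_left hf.2 hx0
    have h4 : ‖x‖ * (1 - η) = ‖x‖ - c := by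
      rw [hη]; field_simp
    rw [h4] at h3
    have h5 : N = ‖x‖ - 3 * c := by rw [hc]; ring
    rw [← hN, h5] at h1
    linarith
  refine containsL1_of_oscillation hsm hx'1 hη0 (a' := -(c / 2)) (b' := -(3 * c / 2))
    (by linarith) fun 𝓕 h𝓕 => ⟨z₁, hn₁, fun p hp => ?_⟩
  obtain ⟨hp1, hp2, hp3⟩ := h𝓕 p hp
  constructor
  · obtain ⟨y, hy, hyS, hyz⟩ := h₁.exists_point hsm hn₁ hp1 hp2 (show 0 < c / 2 by linarith)
    exact ⟨y, hy, hyS, hyz.le⟩
  · obtain ⟨y, hy, hyS, hyz⟩ := h₂.exists_point hsm hn₂ hp1 hp2 (show 0 < c / 2 by linarith)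
    refine ⟨y, hy, hyS, ?_⟩
    have := hneg (J y) (hp3 hyS)
    linarith

/-- almost transitivity on the dual sphere: lower bound for the support function -/
theorem IsO.exists_ge (hsm : ∀ x : E, ‖x‖ = 1 → SmoothAt x)
    (htrans : ∀ x y : E, ‖x‖ = 1 → ‖y‖ = 1 → ∃ T : E ≃ₗᵢ[ℝ] E, T x = y)
    {z : StrongDual ℝ (StrongDual ℝ E)} (hz : IsO z) (hz1 : ‖z‖ ≤ 1) {f₀ : StrongDual ℝ E}
    (hf₀ : ‖f₀‖ = 1) (f : StrongDual ℝ E) {ε : ℝ} (hε : 0 < ε) :
    ∃ z' : StrongDual ℝ (StrongDual ℝ E), IsO z' ∧ ‖z'‖ ≤ 1 ∧ z f₀ * ‖f‖ - ε < z' f := by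
  rcases eq_or_ne f 0 with rfl | hf
  · exact ⟨z, hz, hz1, by simpa using hε⟩
  have hf0 : 0 < ‖f‖ := norm_pos_iff.mpr hf
  set δ : ℝ := ε / (4 * ‖f‖) with hδ
  have hδ0 : 0 < δ := by positivity
  obtain ⟨y₀, g₀, hy₀, hg₀1, hg₀2, hg₀⟩ := bishop_phelps f₀ hf₀ hδ0
  obtain ⟨y, g, hy, hg1, hg2, hg⟩ := bishop_phelps (‖f‖⁻¹ • f)
    (by rw [norm_smul, norm_inv, norm_norm, inv_mul_cancel₀ hf0.ne']) hδ0
  rw [J_unique hy₀ (hsm y₀ hy₀) hg₀1.le hg₀2] at hg₀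
  rw [J_unique hy (hsm y hy) hg1.le hg2] at hg
  obtain ⟨T, hT⟩ := htrans y y₀ hy hy₀
  have hJT : dualIso T (J y) = J y₀ := by
    rw [dualIso_J T hy (by rw [hT]; exact hsm y₀ hy₀), hT]
  refine ⟨Rosenthal.bidualIso T z, hz.bidualIso T, (norm_bidualIso_le T z).trans hz1, ?_⟩
  rw [bidualIso_apply]
  have h1 : z (dualIso T (‖f‖⁻¹ • f)) = ‖f‖⁻¹ * z (dualIso T f) := by
    rw [map_smul, map_smul, smul_eq_mul]
  have h2 : |z (dualIso T (‖f‖⁻¹ • f)) - z f₀| ≤ 2 * δ := by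
    have e : z (dualIso T (‖f‖⁻¹ • f)) - z f₀
        = z (dualIso T (‖f‖⁻¹ • f - J y)) + z (J y₀ - f₀) := by
      rw [map_sub, map_sub, map_sub, hJT]; ring
    rw [e]
    refine (abs_add_le _ _).trans ?_
    have h3 : |z (dualIso T (‖f‖⁻¹ • f - J y))| ≤ δ := by
      refine (z.le_opNorm _).trans ?_
      rw [norm_dualIso, norm_sub_rev]
      calc ‖z‖ * ‖J y - ‖f‖⁻¹ • f‖ ≤ 1 * δ := by gcongr
        _ = δ := one_mul _
    have h4 : |z (J y₀ - f₀)| ≤ δ := by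
      refine (z.le_opNorm _).trans ?_
      calc ‖z‖ * ‖J y₀ - f₀‖ ≤ 1 * δ := by gcongr
        _ = δ := one_mul _
    linarith
  have h5 := (abs_le.mp h2).1
  rw [h1] at h5
  have h6 : z (dualIso T f) = ‖f‖ * (‖f‖⁻¹ * z (dualIso T f)) := by
    rw [← mul_assoc, mul_inv_cancel₀ hf0.ne', one_mul]
  rw [h6]
  have h7 : ‖f‖ * (2 * δ) = ε / 2 := by rw [hδ]; field_simp; ring
  have h8 := mul_le_mul_of_nonneg_left (show z f₀ - 2 * δ ≤ ‖f‖⁻¹ * z (dualIso T f) by linarith)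
    hf0.le
  nlinarith

/-- **Key theorem.** If a smooth space with transitive norm does not contain `ℓ¹`, no nonzero
functional of the bidual has a `1`-norming kernel. -/
theorem IsO.eq_zero (hsm : ∀ x : E, ‖x‖ = 1 → SmoothAt x)
    (htrans : ∀ x y : E, ‖x‖ = 1 → ‖y‖ = 1 → ∃ T : E ≃ₗᵢ[ℝ] E, T x = y)
    (hl1 : ¬ ContainsL1 E) {z : StrongDual ℝ (StrongDual ℝ E)} (hz : IsO z) : z = 0 := by
  by_contra hz0
  have hzn : 0 < ‖z‖ := bnorm_pos hz0
  -- normalise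
  set z₀ : StrongDual ℝ (StrongDual ℝ E) := ‖z‖⁻¹ • z with hz₀
  have hz₀O : IsO z₀ := hz.smul _
  have hz₀n : ‖z₀‖ = 1 := by
    rw [hz₀, bnorm_smul, abs_inv, abs_of_pos hzn, inv_mul_cancel₀ hzn.ne']
  obtain ⟨f₀, hf₀, hf₀z⟩ := exists_unit_lt z₀ (c := 1 / 2) (by norm_num) (by rw [hz₀n]; norm_num)
  set s : ℝ := z₀ f₀ with hs
  obtain ⟨x₀, hx₀⟩ : ∃ x : E, ‖x‖ = 1 := by
    obtain ⟨y, g, hy, -⟩ := bishop_phelps f₀ hf₀ one_pos
    exact ⟨y, hy⟩
  apply hl1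
  classical
  refine containsL1_of_oscillation hsm hx₀ (η₀ := 1 / 4) (by norm_num) (a' := -(s / 4))
    (b' := -(s / 2)) (by linarith) fun 𝓕 h𝓕 => ?_
  -- the convex set of admissible values
  obtain ⟨c, ⟨w, hwO, hwn, rfl⟩, hwa⟩ := exists_approx (ι := {p // p ∈ 𝓕})
    {c | ∃ w : StrongDual ℝ (StrongDual ℝ E), IsO w ∧ ‖w‖ ≤ 1 ∧ c = fun p => w (J p.1.1)} (by
      rintro _ ⟨w₁, h₁, hn₁, rfl⟩ _ ⟨w₂, h₂, hn₂, rfl⟩ a b ha hb hab
      refine ⟨a • w₁ + b • w₂, IsO.add hsm hl1 (h₁.smul a) (h₂.smul b), ?_, rfl⟩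
      refine (bnorm_add_le _ _).trans ?_
      rw [bnorm_smul, bnorm_smul, abs_of_nonneg ha, abs_of_nonneg hb]
      have h1 := mul_le_mul_of_nonneg_left hn₁ ha
      have h2 := mul_le_mul_of_nonneg_left hn₂ hb
      linarith)
    (fun p => -s * J p.1.1 x₀) (by
      intro lam ε hε
      set G : StrongDual ℝ E := ∑ p : {p // p ∈ 𝓕}, lam p • J p.1.1 with hG
      obtain ⟨w, hw1, hw2, hw3⟩ := hz₀O.exists_ge hsm htrans hz₀n.le hf₀ G hε
      refine ⟨_, ⟨w, hw1, hw2, rfl⟩, ?_⟩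
      have e1 : ∑ p : {p // p ∈ 𝓕}, lam p * w (J p.1.1) = w G := by
        rw [hG, map_sum]
        refine Finset.sum_congr rfl fun p _ => ?_
        rw [map_smul, smul_eq_mul]
      have e2 : ∑ p : {p // p ∈ 𝓕}, lam p * (-s * J p.1.1 x₀) = -s * G x₀ := by
        rw [hG, sum_apply, Finset.mul_sum]
        refine Finset.sum_congr rfl fun p _ => ?_
        rw [smul_apply, smul_eq_mul]
        ring
      rw [e1, e2]
      have h1 : -(G x₀) ≤ ‖G‖ := by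
        have := (neg_le_abs (G x₀)).trans (G.le_opNorm x₀)
        rwa [hx₀, mul_one] at this
      have hs0 : 0 < s := by linarith
      have h2 := mul_le_mul_of_nonneg_left h1 hs0.le
      linarith) (show 0 < s / 4 by linarith)
  refine ⟨w, hwn, fun p hp => ?_⟩
  obtain ⟨hp1, hp2, hp3⟩ := h𝓕 p hp
  constructor
  · obtain ⟨y, hy, hyS, hyz⟩ := hwO.exists_point hsm hwn hp1 hp2 (show 0 < s / 4 by linarith)
    exact ⟨y, hy, hyS, hyz.le⟩
  · have hJS : J p.1 ∈ Sl p.1 p.2 := ⟨(J_spec hp1).1.le, by rw [(J_spec hp1).2]; linarith⟩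
    refine ⟨p.1, hp1, hJS, ?_⟩
    have h1 := (abs_lt.mp (hwa ⟨p, hp⟩)).2
    have h3 := (hp3 hJS).2
    simp only at h1
    have hs0 : 0 < s := by linarith
    have h4 := mul_lt_mul_of_pos_left h3 hs0
    linarith

end Helper60.Rosenthal
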