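import Mathlib

/-!
# Independent sequences and `ℓ¹`
-/

open Filter Topology

universe u v

namespace Helper60.Rosenthal

/-- Abstract Cantor scheme. -/
theorem exists_independent {X : Type*} {Y : Type*} (P : Set X → Prop) (v : Y → X → ℝ) (a b : ℝ)
    (hne : ∀ U, P U → U.Nonempty) {U₀ : Set X} (hU₀ : P U₀)
    (step : ∀ 𝓤 : Finset (Set X), (∀ U ∈ 𝓤, P U) → ∃ e : Y, ∀ U ∈ 𝓤,
      (∃ U₁, P U₁ ∧ U₁ ⊆ U ∧ ∀ f ∈ U₁, a ≤ v e f) ∧
      (∃ U₁, P U₁ ∧ U₁ ⊆ U ∧ ∀ f ∈ U₁, v e f ≤ b)) :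
    ∃ e : ℕ → Y, ∀ (n : ℕ) (σ : ℕ → Prop), ∃ f ∈ U₀, ∀ k < n,
      (σ k → a ≤ v (e k) f) ∧ (¬ σ k → v (e k) f ≤ b) := by
  classical
  -- states: finite families of admissible sets
  let S := {𝓤 : Finset (Set X) // ∀ U ∈ 𝓤, P U}
  have step' : ∀ s : S, ∃ (e : Y) (s' : S), ∀ U ∈ s.1,
      (∃ U₁ ∈ s'.1, U₁ ⊆ U ∧ ∀ f ∈ U₁, a ≤ v e f) ∧
      (∃ U₁ ∈ s'.1, U₁ ⊆ U ∧ ∀ f ∈ U₁, v e f ≤ b) := by
    rintro ⟨𝓤, h𝓤⟩
    obtain ⟨e, he⟩ := step 𝓤 h𝓤
    choose! A hA using fun U (hU : U ∈ 𝓤) => (he U hU).1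
    choose! B hB using fun U (hU : U ∈ 𝓤) => (he U hU).2
    refine ⟨e, ⟨𝓤.image A ∪ 𝓤.image B, ?_⟩, fun U hU => ⟨⟨A U, ?_, (hA U hU).2⟩,
      ⟨B U, ?_, (hB U hU).2⟩⟩⟩
    · intro U hU
      rcases Finset.mem_union.mp hU with h | h
      · obtain ⟨W, hW, rfl⟩ := Finset.mem_image.mp h
        exact (hA W hW).1
      · obtain ⟨W, hW, rfl⟩ := Finset.mem_image.mp h
        exact (hB W hW).1
    · exact Finset.mem_union_left _ (Finset.mem_image_of_mem A hU)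
    · exact Finset.mem_union_right _ (Finset.mem_image_of_mem B hU)
  choose E N hN using step'
  let s₀ : S := ⟨{U₀}, by simpa using hU₀⟩
  obtain ⟨s, hs0, hs⟩ : ∃ s : ℕ → S, s 0 = s₀ ∧ ∀ n, s (n + 1) = N (s n) :=
    ⟨fun n => Nat.rec s₀ (fun _ t => N t) n, rfl, fun n => rfl⟩
  refine ⟨fun n => E (s n), fun n σ => ?_⟩
  have key : ∀ n : ℕ, ∃ U ∈ (s n).1, U ⊆ U₀ ∧ ∀ f ∈ U, ∀ k < n,
      (σ k → a ≤ v (E (s k)) f) ∧ (¬ σ k → v (E (s k)) f ≤ b) := by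
    intro n
    induction n with
    | zero =>
      refine ⟨U₀, ?_, subset_rfl, fun f _ k hk => absurd hk (Nat.not_lt_zero k)⟩
      rw [hs0]
      exact Finset.mem_singleton_self U₀
    | succ n ih =>
      obtain ⟨U, hU, hU0, hUk⟩ := ih
      by_cases hσ : σ n
      · obtain ⟨U₁, h1, h2, h3⟩ := (hN (s n) U hU).1
        rw [← hs] at h1
        refine ⟨U₁, h1, h2.trans hU0, fun f hf k hk => ?_⟩
        rcases Nat.lt_succ_iff_lt_or_eq.mp hk with hk' | rfl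
        · exact hUk f (h2 hf) k hk'
        · exact ⟨fun _ => h3 f hf, fun h => absurd hσ h⟩
      · obtain ⟨U₁, h1, h2, h3⟩ := (hN (s n) U hU).2
        rw [← hs] at h1
        refine ⟨U₁, h1, h2.trans hU0, fun f hf k hk => ?_⟩
        rcases Nat.lt_succ_iff_lt_or_eq.mp hk with hk' | rfl
        · exact hUk f (h2 hf) k hk'
        · exact ⟨fun h => absurd h hσ, fun _ => h3 f hf⟩
  obtain ⟨U, hU, hU0, hUk⟩ := key n
  obtain ⟨f, hf⟩ := hne U ((s n).2 U hU)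
  exact ⟨f, hU0 hf, hUk f hf⟩

variable {E : Type u} [NormedAddCommGroup E] [NormedSpace ℝ E]

/-- An independent sequence generates `ℓ¹`. -/
theorem l1_lower_bound (e : ℕ → E) (a b : ℝ)
    (h : ∀ (n : ℕ) (σ : ℕ → Prop), ∃ f : StrongDual ℝ E, ‖f‖ ≤ 1 ∧ ∀ k < n,
      (σ k → a ≤ f (e k)) ∧ (¬ σ k → f (e k) ≤ b)) (n : ℕ) (c : ℕ → ℝ) :
    (a - b) / 2 * ∑ i ∈ Finset.range n, |c i| ≤ ‖∑ i ∈ Finset.range n, c i • e i‖ := by
  obtain ⟨f, hf1, hf⟩ := h n (fun k => 0 ≤ c k)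
  obtain ⟨g, hg1, hg⟩ := h n (fun k => ¬ 0 ≤ c k)
  set x := ∑ i ∈ Finset.range n, c i • e i with hx
  have h1 : (a - b) * ∑ i ∈ Finset.range n, |c i| ≤ f x - g x := by
    rw [hx, map_sum, map_sum, ← Finset.sum_sub_distrib, Finset.mul_sum]
    refine Finset.sum_le_sum fun i hi => ?_
    have hi' := Finset.mem_range.mp hi
    rw [map_smul, map_smul, smul_eq_mul, smul_eq_mul, ← mul_sub]
    rcases le_or_gt 0 (c i) with hc | hc
    · have h2 := (hf i hi').1 hc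
      have h3 := (hg i hi').2 (not_not.mpr hc)
      rw [abs_of_nonneg hc, mul_comm]
      exact mul_le_mul_of_nonneg_left (by linarith) hc
    · have h2 := (hf i hi').2 (not_le.mpr hc)
      have h3 := (hg i hi').1 (not_le.mpr hc)
      rw [abs_of_neg hc]
      have h4 := mul_le_mul_of_nonneg_left (show a - b ≤ g (e i) - f (e i) by linarith)
        (show 0 ≤ -c i by linarith)
      linarith
  have hfx : f x ≤ ‖x‖ := by
    refine (le_abs_self _).trans ((f.le_opNorm x).trans ?_)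
    have := mul_le_mul_of_nonneg_right hf1 (norm_nonneg x)
    linarith
  have hgx : -‖x‖ ≤ g x := by
    have h2 := (neg_le_abs (g x)).trans (g.le_opNorm x)
    have := mul_le_mul_of_nonneg_right hg1 (norm_nonneg x)
    linarith
  linarith

/-- `E` contains an isomorphic copy of `ℓ¹`. -/
def ContainsL1 (E : Type u) [NormedAddCommGroup E] [NormedSpace ℝ E] : Prop :=
  ∃ (e : ℕ → E) (c : ℝ), 0 < c ∧ (∀ k, ‖e k‖ ≤ 1) ∧ ∀ (n : ℕ) (a : ℕ → ℝ),
    c * ∑ i ∈ Finset.range n, |a i| ≤ ‖∑ i ∈ Finset.range n, a i • e i‖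

/-- the sequential form gives an isomorphic embedding of `ℓ¹` -/
theorem ContainsL1.embedding [CompleteSpace E] (h : ContainsL1 E) :
    ∃ (J : lp (fun _ : ℕ => ℝ) 1 →L[ℝ] E) (c : ℝ), 0 < c ∧ ∀ a, c * ‖a‖ ≤ ‖J a‖ := by
  obtain ⟨e, c, hc, he, hlow⟩ := h
  have hsum : ∀ a : lp (fun _ : ℕ => ℝ) 1, Summable (fun i => ‖a i‖) := fun a => by
    have := (lp.memℓp a).summable (by norm_num)
    simpa using this
  have hnorm : ∀ a : lp (fun _ : ℕ => ℝ) 1, ‖a‖ = ∑' i, ‖a i‖ := fun a => by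
    have := lp.norm_eq_tsum_rpow (p := 1) (by norm_num) a
    simpa using this
  have hs : ∀ a : lp (fun _ : ℕ => ℝ) 1, Summable (fun i => a i • e i) := fun a => by
    refine Summable.of_norm_bounded (hsum a) fun i => ?_
    rw [norm_smul]
    have := mul_le_mul_of_nonneg_left (he i) (norm_nonneg (a i))
    linarith
  let J₀ : lp (fun _ : ℕ => ℝ) 1 →ₗ[ℝ] E :=
    { toFun := fun a => ∑' i, a i • e i
      map_add' := fun a b => by
        rw [← (hs a).tsum_add (hs b)]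
        refine tsum_congr fun i => ?_
        rw [← add_smul]
        rfl
      map_smul' := fun r a => by
        rw [RingHom.id_apply, ← (hs a).tsum_const_smul r]
        refine tsum_congr fun i => ?_
        rw [smul_smul]
        rfl }
  have hJ : ∀ a, ‖J₀ a‖ ≤ 1 * ‖a‖ := fun a => by
    rw [one_mul, hnorm a]
    refine tsum_of_norm_bounded (hsum a).hasSum fun i => ?_
    rw [norm_smul]
    have := mul_le_mul_of_nonneg_left (he i) (norm_nonneg (a i))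
    linarith
  refine ⟨J₀.mkContinuous 1 hJ, c, hc, fun a => ?_⟩
  rw [LinearMap.mkContinuous_apply, hnorm a]
  have h1 : Tendsto (fun n => c * ∑ i ∈ Finset.range n, |a i|) atTop (𝓝 (c * ∑' i, ‖a i‖)) :=
    ((hsum a).hasSum.tendsto_sum_nat).const_mul c
  have h2 : Tendsto (fun n => ‖∑ i ∈ Finset.range n, a i • e i‖) atTop (𝓝 ‖J₀ a‖) :=
    ((hs a).hasSum.tendsto_sum_nat).norm
  exact le_of_tendsto_of_tendsto' h1 h2 fun n => hlow n _

end Helper60.Rosenthal
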