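import Pool.Agent.Helper60.Rosenthal.BP
import Pool.Agent.Helper60.Rosenthal.Tree

/-!
# Slices of the dual ball at smooth points
-/

open Filter Topology

universe u v

namespace Helper60.Rosenthal

open Helper59.Rotation

variable {E : Type u} [NormedAddCommGroup E] [NormedSpace ℝ E]

/-- a supporting functional at a unit vector -/
noncomputable def J (x : E) : StrongDual ℝ E :=
  open Classical in
  if h : ‖x‖ = 1 then Classical.choose (exists_dual_vector ℝ x (by rw [h]; norm_num)) else 0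

theorem J_spec {x : E} (hx : ‖x‖ = 1) : ‖J x‖ = 1 ∧ J x x = 1 := by
  have h := Classical.choose_spec (exists_dual_vector ℝ x (by rw [hx]; norm_num))
  unfold J
  rw [dif_pos hx]
  refine ⟨h.1, ?_⟩
  rw [h.2, hx]
  norm_num

theorem le_of_norm_le {f : StrongDual ℝ E} (hf : ‖f‖ ≤ 1) (z : E) : f z ≤ ‖z‖ := by
  refine (le_abs_self _).trans ((f.le_opNorm z).trans ?_)
  have := mul_le_mul_of_nonneg_right hf (norm_nonneg z)
  linarith

theorem J_unique {x : E} (hx : ‖x‖ = 1) (hs : SmoothAt x) {f : StrongDual ℝ E} (hf : ‖f‖ ≤ 1)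
    (hfx : f x = 1) : f = J x :=
  hs f (J x) (le_of_norm_le hf) (le_of_norm_le (J_spec hx).1.le) (by rw [hfx, hx])
    (by rw [(J_spec hx).2, hx])

theorem exists_unit_lt {X : Type*} [NormedAddCommGroup X] [NormedSpace ℝ X] (F : StrongDual ℝ X)
    {c : ℝ} (hc0 : 0 ≤ c) (hc : c < ‖F‖) : ∃ u : X, ‖u‖ = 1 ∧ c < F u := by
  obtain ⟨e, he1, he2⟩ := ContinuousLinearMap.exists_lt_apply_of_lt_opNorm F hc
  have key : ∀ w : X, ‖w‖ < 1 → c < F w → ∃ u : X, ‖u‖ = 1 ∧ c < F u := by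
    intro w hw hFw
    have hw0 : 0 < ‖w‖ := norm_pos_iff.mpr (by
      rintro rfl
      rw [map_zero] at hFw
      linarith)
    refine ⟨‖w‖⁻¹ • w, by rw [norm_smul, norm_inv, norm_norm, inv_mul_cancel₀ hw0.ne'], ?_⟩
    rw [map_smul, smul_eq_mul, inv_mul_eq_div]
    have : F w ≤ F w / ‖w‖ := by
      rw [le_div_iff₀ hw0]
      have := mul_le_mul_of_nonneg_left hw.le (show 0 ≤ F w by linarith)
      linarith
    linarith
  rcases le_total 0 (F e) with h0 | h0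
  · refine key e he1 ?_
    rwa [Real.norm_eq_abs, abs_of_nonneg h0] at he2
  · refine key (-e) (by rwa [norm_neg]) ?_
    rw [Real.norm_eq_abs, abs_of_nonpos h0] at he2
    rwa [map_neg]

/-- slices at a smooth point shrink weakly* -/
theorem slice_nhds {x : E} (hx : ‖x‖ = 1) (hs : SmoothAt x) (v : E) {ε : ℝ} (hε : 0 < ε) :
    ∃ η > 0, ∀ f : StrongDual ℝ E, ‖f‖ ≤ 1 → 1 - η < f x → |f v - J x v| < ε := by
  by_contra hcon
  push Not at hcon
  choose! f hf1 hf2 hf3 using hcon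
  let w : ℕ → WeakDual ℝ E := fun n => StrongDual.toWeakDual (f (1 / ((n : ℝ) + 1)))
  let u : Ultrafilter ℕ := Ultrafilter.of atTop
  have hcomp := WeakDual.isCompact_closedBall (𝕜 := ℝ) (0 : StrongDual ℝ E) 1
  have hpos : ∀ n : ℕ, (0 : ℝ) < 1 / ((n : ℝ) + 1) := fun n => by positivity
  have hmem : ∀ n, w n ∈ (WeakDual.toStrongDual ⁻¹' Metric.closedBall (0 : StrongDual ℝ E) 1) := by
    intro n
    simp only [Set.mem_preimage, Metric.mem_closedBall, dist_zero_right]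
    exact hf1 _ (hpos n)
  obtain ⟨g, hg1, hg2⟩ := hcomp.ultrafilter_le_nhds (u.map w) (by
    rw [Ultrafilter.coe_map]
    exact Filter.le_principal_iff.mpr (Filter.mem_map.mpr (Filter.Eventually.of_forall hmem)))
  have hg2' : Tendsto w u (𝓝 g) := hg2
  have hev : ∀ y : E, Tendsto (fun n : ℕ => f (1 / ((n : ℝ) + 1)) y) u (𝓝 (g y)) := fun y =>
    ((WeakDual.eval_continuous (𝕜 := ℝ) y).tendsto g).comp hg2'
  have hg1' : ‖WeakDual.toStrongDual g‖ ≤ 1 := by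
    simpa using hg1
  have hlim : Tendsto (fun n : ℕ => 1 - 1 / ((n : ℝ) + 1)) u (𝓝 (1 - 0)) :=
    ((tendsto_one_div_add_atTop_nhds_zero_nat (𝕜 := ℝ)).const_sub 1).mono_left
      (Ultrafilter.of_le atTop)
  have hgx : WeakDual.toStrongDual g x = 1 := by
    refine le_antisymm ((le_of_norm_le hg1' x).trans hx.le) ?_
    rw [sub_zero] at hlim
    exact le_of_tendsto_of_tendsto' hlim (hev x) fun n => (hf2 _ (hpos n)).le
  have hgJ := J_unique hx hs hg1' hgx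
  have h1 : Tendsto (fun n : ℕ => |f (1 / ((n : ℝ) + 1)) v - J x v|) u (𝓝 |g v - J x v|) :=
    ((hev v).sub_const _).abs
  have h2 : ε ≤ |g v - J x v| :=
    ge_of_tendsto' h1 fun n => hf3 _ (hpos n)
  have h3 : g v = J x v := by
    rw [← hgJ]
    rfl
  rw [h3, sub_self, abs_zero] at h2
  linarith

theorem J_continuous {x : E} (hx : ‖x‖ = 1) (hs : SmoothAt x) (v : E) {ε : ℝ} (hε : 0 < ε) :
    ∃ η > 0, ∀ y : E, ‖y‖ = 1 → ‖y - x‖ < η → |J y v - J x v| < ε := by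
  obtain ⟨η, hη, h⟩ := slice_nhds hx hs v hε
  refine ⟨η, hη, fun y hy hyx => h (J y) (J_spec hy).1.le ?_⟩
  have h1 : J y x = 1 - J y (y - x) := by
    rw [map_sub, (J_spec hy).2]; ring
  have h2 := le_of_norm_le (J_spec hy).1.le (y - x)
  linarith

/-- the isometry of the dual induced by an isometry -/
noncomputable def dualIso (T : E ≃ₗᵢ[ℝ] E) : StrongDual ℝ E →L[ℝ] StrongDual ℝ E :=
  ContinuousLinearMap.precomp ℝ (T.symm.toContinuousLinearEquiv : E →L[ℝ] E)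

theorem dualIso_apply (T : E ≃ₗᵢ[ℝ] E) (f : StrongDual ℝ E) (v : E) :
    dualIso T f v = f (T.symm v) := rfl

theorem norm_dualIso_le (T : E ≃ₗᵢ[ℝ] E) (f : StrongDual ℝ E) : ‖dualIso T f‖ ≤ ‖f‖ :=
  ContinuousLinearMap.opNorm_le_bound _ (norm_nonneg _) fun v => by
    rw [dualIso_apply]
    have := f.le_opNorm (T.symm v)
    rwa [T.symm.norm_map] at this

theorem dualIso_symm (T : E ≃ₗᵢ[ℝ] E) (f : StrongDual ℝ E) : dualIso T.symm (dualIso T f) = f := by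
  ext v
  rw [dualIso_apply, dualIso_apply]
  simp

theorem dualIso_symm' (T : E ≃ₗᵢ[ℝ] E) (f : StrongDual ℝ E) : dualIso T (dualIso T.symm f) = f := by
  ext v
  rw [dualIso_apply, dualIso_apply]
  simp

theorem norm_dualIso (T : E ≃ₗᵢ[ℝ] E) (f : StrongDual ℝ E) : ‖dualIso T f‖ = ‖f‖ := by
  refine le_antisymm (norm_dualIso_le T f) ?_
  calc ‖f‖ = ‖dualIso T.symm (dualIso T f)‖ := by rw [dualIso_symm]
    _ ≤ _ := norm_dualIso_le _ _

theorem dualIso_J (T : E ≃ₗᵢ[ℝ] E) {x : E} (hx : ‖x‖ = 1) (hs : SmoothAt (T x)) :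
    dualIso T (J x) = J (T x) := by
  refine J_unique (by rw [T.norm_map, hx]) hs (by rw [norm_dualIso, (J_spec hx).1]) ?_
  rw [dualIso_apply, T.symm_apply_apply, (J_spec hx).2]

/-- slices of the dual unit ball -/
def Sl (x : E) (η : ℝ) : Set (StrongDual ℝ E) := {f | ‖f‖ ≤ 1 ∧ 1 - η < f x}

/-- Independence from functionals of the bidual. -/
theorem containsL1_of_oscillation (hsm : ∀ x : E, ‖x‖ = 1 → SmoothAt x) {x₀ : E} {η₀ : ℝ}
    (hx₀ : ‖x₀‖ = 1) (hη₀ : 0 < η₀) {a' b' : ℝ} (hab : b' < a')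
    (H : ∀ 𝓕 : Finset (E × ℝ), (∀ p ∈ 𝓕, ‖p.1‖ = 1 ∧ 0 < p.2 ∧ Sl p.1 p.2 ⊆ Sl x₀ η₀) →
      ∃ z : StrongDual ℝ (StrongDual ℝ E), ‖z‖ ≤ 1 ∧ ∀ p ∈ 𝓕,
        (∃ y, ‖y‖ = 1 ∧ J y ∈ Sl p.1 p.2 ∧ a' ≤ z (J y)) ∧
        (∃ y, ‖y‖ = 1 ∧ J y ∈ Sl p.1 p.2 ∧ z (J y) ≤ b')) : ContainsL1 E := by
  classical
  set W := Sl x₀ η₀ with hW
  let P : Set (StrongDual ℝ E) → Prop := fun U =>
    ∃ p : E × ℝ, ‖p.1‖ = 1 ∧ 0 < p.2 ∧ U = Sl p.1 p.2 ∧ U ⊆ W
  set a : ℝ := (3 * a' + b') / 4 with ha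
  set b : ℝ := (a' + 3 * b') / 4 with hb
  have hεpos : 0 < (a' - b') / 4 := by linarith
  -- small slices inside a slice
  have small : ∀ (p : E × ℝ) (y e : E) (r : ℝ), ‖y‖ = 1 → J y ∈ Sl p.1 p.2 → 0 < r →
      ∃ η > 0, Sl y η ⊆ Sl p.1 p.2 ∧ ∀ f ∈ Sl y η, |f e - J y e| < r := by
    intro p y e r hy hJ hr
    obtain ⟨η₁, hη₁, h₁⟩ := slice_nhds hy (hsm y hy) p.1 (ε := J y p.1 - (1 - p.2))
      (by linarith [hJ.2])
    obtain ⟨η₂, hη₂, h₂⟩ := slice_nhds hy (hsm y hy) e hr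
    refine ⟨min η₁ η₂, lt_min hη₁ hη₂, fun f hf => ⟨hf.1, ?_⟩, fun f hf => h₂ f hf.1 ?_⟩
    · have := h₁ f hf.1 (by linarith [hf.2, min_le_left η₁ η₂])
      linarith [(abs_lt.mp this).1]
    · linarith [hf.2, min_le_right η₁ η₂]
  obtain ⟨e, he⟩ := exists_independent (X := StrongDual ℝ E) (Y := {e : E // ‖e‖ ≤ 1}) P
    (fun e f => f e.1) a b (by
      rintro U ⟨p, hp1, hp2, rfl, -⟩
      exact ⟨J p.1, (J_spec hp1).1.le, by rw [(J_spec hp1).2]; linarith⟩)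
    (U₀ := W) ⟨(x₀, η₀), hx₀, hη₀, rfl, subset_rfl⟩ (by
      intro 𝓤 h𝓤
      choose! p hp1 hp2 hp3 hp4 using h𝓤
      obtain ⟨z, hz, hzp⟩ := H (𝓤.image p) (by
        intro q hq
        obtain ⟨U, hU, rfl⟩ := Finset.mem_image.mp hq
        exact ⟨hp1 U hU, hp2 U hU, by rw [← hp3 U hU]; exact hp4 U hU⟩)
      have hz' := fun U (hU : U ∈ 𝓤) => hzp (p U) (Finset.mem_image_of_mem p hU)
      choose! y hy1 hy2 hy3 using fun U hU => (hz' U hU).1
      choose! y' hy1' hy2' hy3' using fun U hU => (hz' U hU).2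
      obtain ⟨e, he1, he2⟩ := goldstine (ι := {U // U ∈ 𝓤} × Bool) z hz
        (fun i => if i.2 then J (y i.1.1) else J (y' i.1.1)) hεpos
      refine ⟨⟨e, he1⟩, fun U hU => ⟨?_, ?_⟩⟩
      · have h1 := he2 (⟨U, hU⟩, true)
        simp only [if_true] at h1
        obtain ⟨η, hη, hsub, hval⟩ := small (p U) (y U) e (J (y U) e - a) (hy1 U hU)
          (hy2 U hU) (by linarith [(abs_lt.mp h1).1, hy3 U hU])
        refine ⟨Sl (y U) η, ⟨(y U, η), hy1 U hU, hη, rfl, ?_⟩, ?_, fun f hf => ?_⟩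
        · refine hsub.trans ?_
          rw [← hp3 U hU]
          exact hp4 U hU
        · exact hsub.trans (hp3 U hU).ge
        · have := (abs_lt.mp (hval f hf)).1
          change a ≤ f e
          linarith
      · have h1 := he2 (⟨U, hU⟩, false)
        simp only [Bool.false_eq_true, if_false] at h1
        obtain ⟨η, hη, hsub, hval⟩ := small (p U) (y' U) e (b - J (y' U) e) (hy1' U hU)
          (hy2' U hU) (by linarith [(abs_lt.mp h1).2, hy3' U hU])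
        refine ⟨Sl (y' U) η, ⟨(y' U, η), hy1' U hU, hη, rfl, ?_⟩, ?_, fun f hf => ?_⟩
        · refine hsub.trans ?_
          rw [← hp3 U hU]
          exact hp4 U hU
        · exact hsub.trans (hp3 U hU).ge
        · have := (abs_lt.mp (hval f hf)).2
          change f e ≤ b
          linarith)
  refine ⟨fun n => (e n).1, (a - b) / 2, by linarith, fun n => (e n).2, fun n c => ?_⟩
  refine l1_lower_bound (fun n => (e n).1) a b (fun n σ => ?_) n c
  obtain ⟨f, hf, hfk⟩ := he n σ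
  exact ⟨f, hf.1, hfk⟩

end Helper60.Rosenthal
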