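import Pool.Agent.Helper60.Rosenthal.Orth

/-!
# Uniform smoothness and uniform convexity
-/

open Filter Topology

universe u v w

namespace Helper60.Rosenthal

open Helper59.Rotation NormedSpace

section general

/-- Hahn-Banach: a functional vanishing on a closed subspace -/
theorem exists_annihilator {X : Type*} [NormedAddCommGroup X] [NormedSpace ℝ X]
    (p : Submodule ℝ X) (hp : IsClosed (p : Set X)) {z : X} (hz : z ∉ p) :
    ∃ φ : StrongDual ℝ X, (∀ a ∈ p, φ a = 0) ∧ φ z ≠ 0 := by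
  obtain ⟨φ, u, h1, h2⟩ := geometric_hahn_banach_closed_point p.convex hp
    (show z ∉ (p : Set X) from hz)
  have h0 : 0 < u := by
    have := h1 0 p.zero_mem
    rwa [map_zero] at this
  refine ⟨φ, fun a ha => ?_, by linarith⟩
  by_contra hne
  have := h1 ((u / φ a) • a) (p.smul_mem _ ha)
  rw [map_smul, smul_eq_mul, div_mul_cancel₀ _ hne] at this
  exact lt_irrefl _ this

/-- uniformly smooth norm -/
def USmooth (X : Type*) [NormedAddCommGroup X] : Prop :=
  ∀ ε : ℝ, 0 < ε → ∃ δ : ℝ, 0 < δ ∧ ∀ x h : X, ‖x‖ = 1 → ‖h‖ ≤ δ →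
    ‖x + h‖ + ‖x - h‖ ≤ 2 + ε * ‖h‖

/-- uniformly convex norm -/
def UConvex (X : Type*) [NormedAddCommGroup X] : Prop :=
  ∀ ε : ℝ, 0 < ε → ∃ δ : ℝ, 0 < δ ∧ ∀ x y : X, ‖x‖ = 1 → ‖y‖ = 1 → ε ≤ ‖x - y‖ →
    ‖x + y‖ ≤ 2 - δ

variable {X : Type u} [NormedAddCommGroup X] [NormedSpace ℝ X]

/-- the dual of a uniformly smooth space is uniformly convex -/
theorem uconvex_dual (h : USmooth X) : UConvex (StrongDual ℝ X) := by
  intro ε hε
  obtain ⟨δ, hδ, hsm⟩ := h (ε / 2) (by positivity)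
  refine ⟨min (δ * ε / 4) 1, lt_min (by positivity) one_pos, fun f g hf hg hfg => ?_⟩
  by_contra hcon
  push Not at hcon
  have hm1 := min_le_left (δ * ε / 4) 1
  have hm2 := min_le_right (δ * ε / 4) 1
  obtain ⟨x, hx, hfx⟩ := exists_unit_lt (f + g) (c := 2 - min (δ * ε / 4) 1)
    (by linarith) hcon
  obtain ⟨y, hy, hfy⟩ := exists_unit_lt (f - g) (c := ε / 2 + ε / 4) (by positivity)
    (by linarith)
  have h1 := hsm x (δ • y) hx (by
    rw [norm_smul, Real.norm_eq_abs, abs_of_pos hδ, hy, mul_one])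
  have h2 := le_of_norm_le hf.le (x + δ • y)
  have h3 := le_of_norm_le hg.le (x - δ • y)
  rw [map_add, map_smul, smul_eq_mul] at h2
  rw [map_sub, map_smul, smul_eq_mul] at h3
  rw [norm_smul, Real.norm_eq_abs, abs_of_pos hδ, hy, mul_one] at h1
  rw [add_apply] at hfx
  rw [sub_apply] at hfy
  have h4 := mul_lt_mul_of_pos_left hfy hδ
  nlinarith

/-- a space with uniformly smooth dual is uniformly convex -/
theorem uconvex_of_dual (h : USmooth (StrongDual ℝ X)) : UConvex X := by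
  intro ε hε
  obtain ⟨δ, hδ, hsm⟩ := h (ε / 2) (by positivity)
  refine ⟨min (δ * ε / 4) 1, lt_min (by positivity) one_pos, fun x y hx hy hxy => ?_⟩
  have hm1 := min_le_left (δ * ε / 4) 1
  have hm2 := min_le_right (δ * ε / 4) 1
  by_contra hcon
  push Not at hcon
  obtain ⟨f, hf, hfx⟩ := exists_dual_vector ℝ (x + y) (by linarith)
  obtain ⟨g, hg, hgx⟩ := exists_dual_vector ℝ (x - y) (by linarith)
  have hfx' : f x + f y = ‖x + y‖ := by
    rw [← map_add, hfx]; rfl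
  have hgx' : g x - g y = ‖x - y‖ := by
    rw [← map_sub, hgx]; rfl
  have h1 := hsm f (δ • g) hf (by
    rw [norm_smul, Real.norm_eq_abs, abs_of_pos hδ, hg, mul_one])
  rw [norm_smul, Real.norm_eq_abs, abs_of_pos hδ, hg, mul_one] at h1
  have h2 : f x + δ * g x ≤ ‖f + δ • g‖ := by
    have := (le_abs_self _).trans ((f + δ • g).le_opNorm x)
    rwa [hx, mul_one, add_apply, smul_apply, smul_eq_mul] at this
  have h3 : f y - δ * g y ≤ ‖f - δ • g‖ := by
    have := (le_abs_self _).trans ((f - δ • g).le_opNorm y)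
    rwa [hy, mul_one, sub_apply, smul_apply, smul_eq_mul] at this
  have h4 := mul_le_mul_of_nonneg_left hxy hδ.le
  nlinarith

/-- Milman-Pettis in the form needed here: a norming Banach space of functionals on a uniformly
convex space is the whole dual. -/
theorem surjective_of_uconvex {E : Type v} [NormedAddCommGroup E] [NormedSpace ℝ E]
    [CompleteSpace E] (hX : UConvex X) (ι : E →ₗᵢ[ℝ] StrongDual ℝ X)
    (hnorming : ∀ f : X, ∀ c < ‖f‖, ∃ x : E, ‖x‖ ≤ 1 ∧ c < ι x f) :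
    Function.Surjective ι := by
  by_contra hsurj
  have hsurj' : ∃ z, ∀ x, ι x ≠ z := by
    unfold Function.Surjective at hsurj
    push Not at hsurj
    exact hsurj
  obtain ⟨z, hz⟩ := hsurj'
  have hclosed : IsClosed (ι.toLinearMap.range : Set (StrongDual ℝ X)) := by
    have : (ι.toLinearMap.range : Set (StrongDual ℝ X)) = Set.range ι := by
      ext y; simp
    rw [this]
    exact ι.isometry.isClosedEmbedding.isClosed_range
  have hzr : z ∉ ι.toLinearMap.range := by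
    rintro ⟨x, hx⟩
    exact hz x hx
  obtain ⟨φ, hφ0, hφz⟩ := exists_annihilator ι.toLinearMap.range hclosed hzr
  have hφn : 0 < ‖φ‖ := by
    refine bnorm_pos ?_
    rintro rfl
    exact hφz rfl
  set Φ : StrongDual ℝ (StrongDual ℝ X) := ‖φ‖⁻¹ • φ with hΦ
  have hΦn : ‖Φ‖ = 1 := by
    rw [hΦ, bnorm_smul, abs_inv, abs_of_pos hφn, inv_mul_cancel₀ hφn.ne']
  have hΦ0 : ∀ x, Φ (ι x) = 0 := fun x => by
    rw [hΦ]
    have h0 : φ (ι x) = 0 := hφ0 (ι x) ⟨x, rfl⟩
    change ‖φ‖⁻¹ * φ (ι x) = 0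
    rw [h0, mul_zero]
  obtain ⟨δ, hδ, hconv⟩ := hX (1 / 4) (by norm_num)
  set κ : ℝ := min (δ / 8) (1 / 16) with hκ
  have hκ0 : 0 < κ := lt_min (by positivity) (by norm_num)
  have hκ1 : κ ≤ δ / 8 := min_le_left _ _
  have hκ2 : κ ≤ 1 / 16 := min_le_right _ _
  obtain ⟨z₁, hz₁, hz₁Φ⟩ := exists_unit_lt Φ (c := 1 - κ) (by linarith) (by rw [hΦn]; linarith)
  have hz₁le := fun f => le_of_norm_le hz₁.le f
  obtain ⟨f₁, hf₁, hf₁a⟩ := goldstine (ι := Unit) Φ hΦn.le (fun _ => z₁) hκ0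
  have hf₁z : 1 - 2 * κ < z₁ f₁ := by
    have := (abs_lt.mp (hf₁a ())).1
    linarith
  have hf₁n : 1 - 2 * κ < ‖f₁‖ := lt_of_lt_of_le hf₁z (hz₁le f₁)
  obtain ⟨x₁, hx₁, hx₁f⟩ := hnorming f₁ (1 - 2 * κ) hf₁n
  obtain ⟨f₂, hf₂, hf₂a⟩ := goldstine (ι := Bool) Φ hΦn.le
    (fun b => if b then z₁ else ι x₁) hκ0
  have hf₂z : 1 - 2 * κ < z₁ f₂ := by
    have := (abs_lt.mp (hf₂a true)).1
    simp only [if_true] at this
    linarith
  have hf₂x : ι x₁ f₂ < κ := by
    have := (abs_lt.mp (hf₂a false)).2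
    simp only [Bool.false_eq_true, if_false] at this
    rw [hΦ0] at this
    linarith
  have hf₂n : 1 - 2 * κ < ‖f₂‖ := lt_of_lt_of_le hf₂z (hz₁le f₂)
  -- normalise
  have hf₁0 : 0 < ‖f₁‖ := by linarith
  have hf₂0 : 0 < ‖f₂‖ := by linarith
  set g₁ : X := ‖f₁‖⁻¹ • f₁ with hg₁
  set g₂ : X := ‖f₂‖⁻¹ • f₂ with hg₂
  have hg₁n : ‖g₁‖ = 1 := by rw [hg₁, norm_smul, norm_inv, norm_norm, inv_mul_cancel₀ hf₁0.ne']
  have hg₂n : ‖g₂‖ = 1 := by rw [hg₂, norm_smul, norm_inv, norm_norm, inv_mul_cancel₀ hf₂0.ne']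
  have hd₁ : ‖g₁ - f₁‖ ≤ 2 * κ := by
    have e : g₁ - f₁ = (1 - ‖f₁‖) • g₁ := by
      rw [sub_smul, one_smul, hg₁, smul_smul, mul_inv_cancel₀ hf₁0.ne', one_smul]
    rw [e, norm_smul, hg₁n, mul_one, Real.norm_eq_abs, abs_of_nonneg (by linarith)]
    linarith
  have hd₂ : ‖g₂ - f₂‖ ≤ 2 * κ := by
    have e : g₂ - f₂ = (1 - ‖f₂‖) • g₂ := by
      rw [sub_smul, one_smul, hg₂, smul_smul, mul_inv_cancel₀ hf₂0.ne', one_smul]
    rw [e, norm_smul, hg₂n, mul_one, Real.norm_eq_abs, abs_of_nonneg (by linarith)]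
    linarith
  have hιn : ‖ι x₁‖ ≤ 1 := by rw [ι.norm_map]; exact hx₁
  have hbig : 1 / 4 ≤ ‖g₁ - g₂‖ := by
    have h1 := le_of_norm_le hιn (g₁ - g₂)
    have h2 : ι x₁ (g₁ - g₂) = (ι x₁ f₁ - ι x₁ f₂) + (ι x₁ (g₁ - f₁) - ι x₁ (g₂ - f₂)) := by
      simp only [map_sub]; ring
    have h3 := (neg_le_abs _).trans (((ι x₁).le_opNorm (g₁ - f₁)))
    have h4 := (le_abs_self _).trans (((ι x₁).le_opNorm (g₂ - f₂)))
    have h5 : ‖ι x₁‖ * ‖g₁ - f₁‖ ≤ 1 * (2 * κ) := by gcongr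
    have h6 : ‖ι x₁‖ * ‖g₂ - f₂‖ ≤ 1 * (2 * κ) := by gcongr
    linarith
  have h1 := hconv g₁ g₂ hg₁n hg₂n hbig
  have h2 := hz₁le (g₁ + g₂)
  have h3 : z₁ (g₁ + g₂) = (z₁ f₁ + z₁ f₂) + (z₁ (g₁ - f₁) + z₁ (g₂ - f₂)) := by
    simp only [map_sub, map_add]; ring
  have h4 := (neg_le_abs _).trans (z₁.le_opNorm (g₁ - f₁))
  have h5 := (neg_le_abs _).trans (z₁.le_opNorm (g₂ - f₂))
  rw [hz₁, one_mul] at h4 h5
  linarith

end general

variable {E : Type u} [NormedAddCommGroup E] [NormedSpace ℝ E]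

/-- the dual is separable if no nonzero functional of the bidual has a norming kernel -/
theorem dual_separable [TopologicalSpace.SeparableSpace E]
    (h : ∀ z : StrongDual ℝ (StrongDual ℝ E), IsO z → z = 0) :
    TopologicalSpace.SeparableSpace (StrongDual ℝ E) := by
  set x : ℕ → E := TopologicalSpace.denseSeq E with hx
  have hd : DenseRange x := TopologicalSpace.denseRange_denseSeq E
  choose f hf1 hf2 using fun n => exists_dual_vector'' ℝ (x n)
  set p : Submodule ℝ (StrongDual ℝ E) := (Submodule.span ℝ (Set.range f)).topologicalClosure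
    with hp
  have hpc : IsClosed (p : Set (StrongDual ℝ E)) := Submodule.isClosed_topologicalClosure _
  have htop : ∀ g : StrongDual ℝ E, g ∈ p := by
    intro g
    by_contra hg
    obtain ⟨φ, hφ0, hφg⟩ := exists_annihilator p hpc hg
    have hO : IsO φ := by
      intro y
      refine le_of_forall_pos_le_add fun ε hε => ?_
      obtain ⟨n, hn⟩ := hd.exists_dist_lt y (ε := ε / 2) (by positivity)
      rw [dist_eq_norm] at hn
      have h1 := apply_le_bnorm (inclusionInDoubleDual ℝ E y + φ) (hf1 n)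
      rw [add_apply, dual_def, hφ0 (f n) (Submodule.le_topologicalClosure _
        (Submodule.subset_span ⟨n, rfl⟩)), add_zero] at h1
      have h2 : f n y = ‖x n‖ + f n (y - x n) := by
        rw [map_sub, hf2]; simp
      have h3 := (neg_le_abs _).trans ((f n).le_opNorm (y - x n))
      have h4 : ‖f n‖ * ‖y - x n‖ ≤ 1 * ‖y - x n‖ := by gcongr; exact hf1 n
      have h5 := norm_sub_norm_le y (x n)
      linarith
    have := h φ hO
    rw [this] at hφg
    exact hφg rfl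
  have hsep : TopologicalSpace.IsSeparable (p : Set (StrongDual ℝ E)) := by
    rw [hp, Submodule.topologicalClosure_coe]
    exact ((Set.countable_range f).isSeparable.span (R := ℝ)).closure
  rw [← TopologicalSpace.isSeparable_univ_iff]
  refine hsep.mono fun g _ => htop g

/-- Baire category: the duality map is uniformly norm continuous -/
theorem uniform_J [CompleteSpace E] (hsm : ∀ x : E, ‖x‖ = 1 → SmoothAt x)
    (htrans : ∀ x y : E, ‖x‖ = 1 → ‖y‖ = 1 → ∃ T : E ≃ₗᵢ[ℝ] E, T x = y)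
    [TopologicalSpace.SeparableSpace (StrongDual ℝ E)] {ε : ℝ} (hε : 0 < ε) :
    ∃ δ > 0, ∀ x y : E, ‖x‖ = 1 → ‖y‖ = 1 → ‖y - x‖ < δ → ‖J y - J x‖ ≤ ε := by
  by_cases hne : ∃ x : E, ‖x‖ = 1
  swap
  · exact ⟨1, one_pos, fun x y hx _ _ => absurd ⟨x, hx⟩ hne⟩
  obtain ⟨x₁, hx₁⟩ := hne
  let S := {x : E // ‖x‖ = 1}
  have hSc : IsClosed {x : E | ‖x‖ = 1} := isClosed_eq continuous_norm continuous_const
  have : CompleteSpace S := hSc.completeSpace_coe
  have : Nonempty S := ⟨⟨x₁, hx₁⟩⟩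
  have hJc : ∀ v : E, Continuous (fun x : S => J x.1 v) := by
    intro v
    rw [Metric.continuous_iff]
    intro x r hr
    obtain ⟨η, hη, h⟩ := J_continuous x.2 (hsm x.1 x.2) v hr
    refine ⟨η, hη, fun y hy => ?_⟩
    rw [Real.dist_eq]
    refine h y.1 y.2 ?_
    rw [Subtype.dist_eq, dist_eq_norm] at hy
    exact hy
  set d : ℕ → StrongDual ℝ E := TopologicalSpace.denseSeq (StrongDual ℝ E) with hd
  have hdd : DenseRange d := TopologicalSpace.denseRange_denseSeq _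
  let A : ℕ → Set S := fun n => ⋂ v : {v : E // ‖v‖ ≤ 1}, {x : S | J x.1 v.1 - d n v.1 ≤ ε / 2}
  have hAc : ∀ n, IsClosed (A n) := fun n => isClosed_iInter fun v =>
    isClosed_le ((hJc v.1).sub continuous_const) continuous_const
  have hAn : ∀ n, ∀ x ∈ A n, ‖J x.1 - d n‖ ≤ ε / 2 := by
    intro n x hx
    refine ContinuousLinearMap.opNorm_le_of_unit_norm (by positivity) fun v hv => ?_
    rw [sub_apply, Real.norm_eq_abs, abs_le]
    constructor
    · have := Set.mem_iInter.mp hx ⟨-v, by rw [norm_neg, hv]⟩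
      have h2 : J x.1 (-v) - d n (-v) ≤ ε / 2 := this
      rw [map_neg, map_neg] at h2
      linarith
    · exact Set.mem_iInter.mp hx ⟨v, hv.le⟩
  have hAu : ⋃ n, A n = Set.univ := by
    refine Set.eq_univ_of_forall fun x => ?_
    obtain ⟨n, hn⟩ := hdd.exists_dist_lt (J x.1) (ε := ε / 2) (by positivity)
    rw [dist_eq_norm] at hn
    refine Set.mem_iUnion.mpr ⟨n, Set.mem_iInter.mpr fun v => ?_⟩
    change J x.1 v.1 - d n v.1 ≤ ε / 2
    rw [← sub_apply]
    refine (le_abs_self _).trans (((J x.1 - d n).le_opNorm v.1).trans ?_)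
    calc ‖J x.1 - d n‖ * ‖v.1‖ ≤ (ε / 2) * 1 := by gcongr; exact v.2
      _ = ε / 2 := mul_one _
  obtain ⟨n, x₀, hx₀⟩ := nonempty_interior_of_iUnion_of_closed hAc hAu
  rw [mem_interior_iff_mem_nhds, Metric.mem_nhds_iff] at hx₀
  obtain ⟨r, hr, hball⟩ := hx₀
  have hloc : ∀ y : E, ‖y‖ = 1 → ‖y - x₀.1‖ < r → ‖J y - J x₀.1‖ ≤ ε := by
    intro y hy hyx
    have h1 := hAn n ⟨y, hy⟩ (hball (by
      rw [Metric.mem_ball, Subtype.dist_eq, dist_eq_norm]; exact hyx))
    have h2 := hAn n x₀ (hball (Metric.mem_ball_self hr))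
    have e : J y - J x₀.1 = (J y - d n) - (J x₀.1 - d n) := by abel
    rw [e]
    refine (norm_sub_le _ _).trans ?_
    simp only at h1
    linarith
  refine ⟨r, hr, fun x y hx hy hyx => ?_⟩
  obtain ⟨T, hT⟩ := htrans x₀.1 x x₀.2 hx
  set y₀ : E := T.symm y with hy₀
  have hy₀n : ‖y₀‖ = 1 := by rw [hy₀, T.symm.norm_map, hy]
  have hTy : T y₀ = y := T.apply_symm_apply y
  have h1 := hloc y₀ hy₀n (by
    rw [← T.norm_map, map_sub, hT, hTy]; exact hyx)
  have h2 : J y - J x = dualIso T (J y₀ - J x₀.1) := by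
    rw [map_sub, dualIso_J T hy₀n (by rw [hTy]; exact hsm y hy),
      dualIso_J T x₀.2 (by rw [hT]; exact hsm x hx), hTy, hT]
  rw [h2, norm_dualIso]
  exact h1

/-- A separable space with transitive norm and separable dual is uniformly smooth. -/
theorem usmooth_of_separable_dual [CompleteSpace E] [TopologicalSpace.SeparableSpace E]
    (htrans : ∀ x y : E, ‖x‖ = 1 → ‖y‖ = 1 → ∃ T : E ≃ₗᵢ[ℝ] E, T x = y)
    [TopologicalSpace.SeparableSpace (StrongDual ℝ E)] : USmooth E := by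
  have hsm : ∀ x : E, ‖x‖ = 1 → SmoothAt x := fun x hx => smoothAt_of_transitive htrans hx
  intro ε hε
  obtain ⟨δ, hδ, hJ⟩ := uniform_J hsm htrans (show 0 < ε / 2 by positivity)
  refine ⟨min (δ / 4) (1 / 2), lt_min (by positivity) (by norm_num), fun x h hx hh => ?_⟩
  have hh1 : ‖h‖ ≤ δ / 4 := hh.trans (min_le_left _ _)
  have hh2 : ‖h‖ ≤ 1 / 2 := hh.trans (min_le_right _ _)
  have key : ∀ k : E, ‖k‖ = ‖h‖ → ∃ y : E, ‖y‖ = 1 ∧ ‖y - x‖ < δ ∧ ‖x + k‖ ≤ 1 + J y k := by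
    intro k hk
    have h1 : 1 / 2 ≤ ‖x + k‖ := by
      have := norm_sub_norm_le x (-k)
      rw [norm_neg, sub_neg_eq_add, hx, hk] at this
      linarith
    have hpos : 0 < ‖x + k‖ := by linarith
    have hy : ‖‖x + k‖⁻¹ • (x + k)‖ = 1 := by
      rw [norm_smul, norm_inv, norm_norm, inv_mul_cancel₀ hpos.ne']
    refine ⟨‖x + k‖⁻¹ • (x + k), hy, ?_, ?_⟩
    · have e : ‖x + k‖⁻¹ • (x + k) - x = (1 - ‖x + k‖) • (‖x + k‖⁻¹ • (x + k)) + k := by
        rw [sub_smul, one_smul, smul_smul ‖x + k‖, mul_inv_cancel₀ hpos.ne', one_smul]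
        abel
      rw [e]
      refine lt_of_le_of_lt (norm_add_le _ _) ?_
      rw [norm_smul, hy, mul_one, Real.norm_eq_abs, hk]
      have h2 := abs_norm_sub_norm_le x (x + k)
      rw [hx, sub_add_cancel_left, norm_neg, hk] at h2
      linarith
    · have h2 := (J_spec hy).2
      rw [map_smul, smul_eq_mul, inv_mul_eq_div, div_eq_one_iff_eq hpos.ne', map_add] at h2
      have h3 := le_of_norm_le (J_spec hy).1.le x
      rw [hx] at h3
      linarith
  obtain ⟨y₁, hy₁, hy₁x, h1⟩ := key h rfl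
  obtain ⟨y₂, hy₂, hy₂x, h2⟩ := key (-h) (norm_neg h)
  rw [← sub_eq_add_neg, map_neg] at h2
  have h3 := hJ x y₁ hx hy₁ hy₁x
  have h4 := hJ x y₂ hx hy₂ hy₂x
  have h5 : J y₁ h - J y₂ h ≤ ε * ‖h‖ := by
    rw [← sub_apply]
    refine (le_abs_self _).trans (((J y₁ - J y₂).le_opNorm h).trans ?_)
    gcongr
    have e : J y₁ - J y₂ = (J y₁ - J x) - (J y₂ - J x) := by abel
    rw [e]
    refine (norm_sub_le _ _).trans ?_
    linarith
  linarith

end Helper60.Rosenthal
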